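import Pool.Agent.Helper35.PX.Goals

/-!
# MP_bec853_al, packet X2 (handoff 417): the relative leaf theorem
-/

namespace Pool.Agent.Helper3.PX

open FreeGroup Pool.Agent.Helper35.PP Pool.Agent.Helper35.PX

variable {α : Type} [DecidableEq α]

/-! ### the powers of a generator -/

/-- the subgroup of all words in the letters `z`, `z⁻¹` -/
def ZV (z : α) : Subgroup (FreeGroup α) where
  carrier := {h | ∀ p ∈ h.toWord, p.1 = z}
  one_mem' := by simp
  mul_mem' := by
    intro a b ha hb p hp
    have := (toWord_mul_sublist a b).subset hp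
    rw [List.mem_append] at this
    rcases this with h | h
    · exact ha p h
    · exact hb p h
  inv_mem' := by
    intro a ha p hp
    rw [toWord_inv] at hp
    unfold FreeGroup.invRev at hp
    rw [List.mem_reverse, List.mem_map] at hp
    obtain ⟨q, hq, rfl⟩ := hp
    exact ha q hq

lemma el_mem_ZV {z : α} {x : α × Bool} (h : x.1 = z) : el x ∈ ZV z := by
  intro p hp
  rw [toWord_el, List.mem_singleton] at hp
  subst hp
  exact h

lemma of_mem_ZV (z : α) : FreeGroup.of z ∈ ZV z := el_mem_ZV (x := (z, true)) rfl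

lemma hd_of_mem_ZV {z : α} {h : FreeGroup α} (hh : h ∈ ZV z) {x : α × Bool}
    (hx : hd h = some x) : x.1 = z := by
  apply hh
  unfold hd at hx
  exact List.mem_of_mem_head? hx

/-- elements outside the subgroup keep their head -/
lemma hd_mul_ZV {z : α} (k : FreeGroup α) :
    ∀ h, k ∉ ZV z → h ∈ ZV z → hd (k * h) = hd k := by
  induction hn : k.norm using Nat.strong_induction_on generalizing k with
  | _ n ih =>
    intro h hk hh
    have k1 : k ≠ 1 := by rintro rfl; exact hk (ZV z).one_mem
    obtain ⟨k', y, h1, h2⟩ := exists_snoc k1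
    by_cases hy : y.1 = z
    · have hk' : k' ∉ ZV z := by
        intro hc
        apply hk
        rw [h1]
        exact (ZV z).mul_mem hc (el_mem_ZV hy)
      have hlt : k'.norm < n := by
        rw [← hn]
        unfold FreeGroup.norm
        rw [h2]
        simp
      have e1 := ih _ hlt k' rfl (el y * h) hk' ((ZV z).mul_mem (el_mem_ZV hy) hh)
      rw [h1, mul_assoc, e1]
      have k'1 : k' ≠ 1 := by rintro rfl; exact hk' (ZV z).one_mem
      unfold hd
      rw [← h1, h2]
      rw [List.head?_append_of_ne_nil]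
      intro h0
      exact k'1 (toWord_eq_nil_iff.1 h0)
    · apply hd_mul_nc _ k1
      intro x hx hhx
      rw [h1, mul_inv_rev, ← el_nv] at hx
      have hky : hd k'⁻¹ ≠ some (nv (nv y)) := by
        rw [nv_nv]
        intro hc
        rw [hd_inv] at hc
        cases hl : k'.toWord.getLast? with
        | none => rw [hl] at hc; simp at hc
        | some w =>
          rw [hl] at hc
          simp only [Option.map_some, Option.some.injEq] at hc
          have hred : FreeGroup.IsReduced (k'.toWord ++ [y]) := by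
            rw [← h2]; exact isReduced_toWord
          unfold FreeGroup.IsReduced at hred
          rw [List.isChain_append] at hred
          have := hred.2.2 w hl y (by simp) (by rw [← hc]; rfl)
          rw [← hc] at this
          simp [nv] at this
      rw [hd_el_mul_of hky] at hx
      injection hx with hx
      have := hd_of_mem_ZV hh hhx
      rw [← hx] at this
      exact hy this

lemma zpow_of_inj (z : α) : Function.Injective (fun n : ℤ => (FreeGroup.of z : FreeGroup α) ^ n) := by
  intro n m h
  have h2 := congrArg (FreeGroup.lift (fun _ : α => Multiplicative.ofAdd (1 : ℤ))) h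
  simp only [_root_.map_zpow, FreeGroup.lift_apply_of] at h2
  have h3 := congrArg Multiplicative.toAdd h2
  simpa using h3

/-! ### the head after the move -/

section Del

variable {A : Finset (α × Bool)} {l : α × Bool}

lemma del_of_mem2' (hA : ∀ y ∈ A, y.1 ≠ l.1) {p : FreeGroup α} {y : α × Bool}
    (hy : y ∈ A) (hp : hd (el l * p) = some y) : del A l p = some y := by
  have hyl : y ≠ l := by rintro rfl; exact hA _ hy rfl
  have hpl : hd p = some (nv l) := by
    by_contra h
    rw [hd_el_mul_of h] at hp
    injection hp with hp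
    exact hyl hp.symm
  unfold del
  rw [if_neg, if_pos ⟨y, hy, hp⟩, hp]
  rintro ⟨z, hz, hpz⟩
  rw [hpl] at hpz
  injection hpz with hpz
  exact hA z hz (by rw [← hpz]; rfl)

lemma del_of_hd2 (hA : ∀ y ∈ A, y.1 ≠ l.1) {p : FreeGroup α} {x : α × Bool}
    (hx : x ∉ A) (hxl : x ≠ nv l) (hp : hd p = some x) : del A l p = some x := by
  rw [del_of_not, hp]
  · intro y hy h
    rw [hp] at h
    injection h with h
    exact hx (h ▸ hy)
  · intro y hy h
    have : hd (el l * p) = some l := by
      apply hd_el_mul_of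
      rw [hp]
      intro h
      injection h with h
      exact hxl h
    rw [this] at h
    injection h with h
    exact hA y hy (by rw [← h])

/-- the Whitehead automorphism (as a homomorphism) with exponent `σ` -/
def psi (A : Finset (α × Bool)) (m : FreeGroup α) : FreeGroup α →* FreeGroup α :=
  FreeGroup.lift (fun a => (if (a, true) ∈ A then m⁻¹ else 1) * of a *
    (if (a, false) ∈ A then m else 1))

lemma psi_of (A : Finset (α × Bool)) (m : FreeGroup α) (a : α) :
    psi A m (of a) = (if (a, true) ∈ A then m⁻¹ else 1) * of a *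
    (if (a, false) ∈ A then m else 1) := by
  simp [psi]

lemma psi_el (A : Finset (α × Bool)) (m : FreeGroup α) (x : α × Bool) :
    psi A m (el x) = (if x ∈ A then m⁻¹ else 1) * el x * (if nv x ∈ A then m else 1) := by
  obtain ⟨j, b⟩ := x
  cases b
  · rw [el_false, _root_.map_inv, psi_of]
    simp only [nv, Bool.not_false]
    split_ifs <;> group
  · rw [el_true, psi_of]
    simp only [nv, Bool.not_true]

lemma psi_el_self (hA : ∀ y ∈ A, y.1 ≠ l.1) (m : FreeGroup α) : psi A m (el l) = el l := by
  have h1 : l ∉ A := fun h => hA _ h rfl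
  have h2 : nv l ∉ A := fun h => hA _ h rfl
  rw [psi_el, if_neg h1, if_neg h2]
  simp

lemma psi_psi (hA : ∀ y ∈ A, y.1 ≠ l.1) (m m' : FreeGroup α) (hm : m = el l ∨ m = (el l)⁻¹)
    (hm' : m' = m⁻¹) (g : FreeGroup α) : psi A m (psi A m' g) = g := by
  have hfix : psi A m m = m := by
    rcases hm with rfl | rfl
    · exact psi_el_self hA _
    · rw [_root_.map_inv, psi_el_self hA]
  have : (psi A m).comp (psi A m') = MonoidHom.id (FreeGroup α) := by
    apply FreeGroup.ext_hom
    intro j
    rw [MonoidHom.comp_apply, psi_of, _root_.map_mul, _root_.map_mul, psi_of, hm']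
    rw [MonoidHom.id_apply]
    split_ifs <;> simp only [_root_.map_inv, _root_.map_one, hfix] <;> group
  have h2 := DFunLike.congr_fun this g
  exact h2

/-- the Whitehead automorphism -/
def psiE (A : Finset (α × Bool)) (l : α × Bool) (hA : ∀ y ∈ A, y.1 ≠ l.1) :
    FreeGroup α ≃* FreeGroup α :=
  { psi A (el l) with
    toFun := psi A (el l)
    invFun := psi A (el l)⁻¹
    left_inv := by
      intro g
      exact psi_psi hA _ _ (Or.inr rfl) (by simp) g
    right_inv := by
      intro g
      exact psi_psi hA _ _ (Or.inl rfl) rfl g }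

@[simp] lemma psiE_apply (A : Finset (α × Bool)) (l : α × Bool) (hA : ∀ y ∈ A, y.1 ≠ l.1)
    (g : FreeGroup α) : psiE A l hA g = psi A (el l) g := rfl

lemma del_step2 (hA : ∀ y ∈ A, y.1 ≠ l.1) (x : α × Bool) (q : FreeGroup α)
    (hq : del A l q ≠ some (nv x)) :
    del A l (psi A (el l) (el x) * q) = some x := by
  have hlA : l ∉ A := fun h => hA l h rfl
  have hnlA : nv l ∉ A := fun h => hA (nv l) h rfl
  by_cases hxl : x = l
  · subst hxl
    rw [psi_el_self hA]
    by_cases hqh : hd q = some (nv x)
    · by_cases hex : ∃ y ∈ A, hd (el x * q) = some y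
      · obtain ⟨y, hy, hy2⟩ := hex
        exact del_of_mem hy hy2
      · exfalso
        apply hq
        rw [del_of_not, hqh]
        · intro y hy h
          rw [hqh] at h
          injection h with h
          exact hnlA (h ▸ hy)
        · intro y hy h
          exact hex ⟨y, hy, h⟩
    · exact del_of_hd2 hA hlA (nv_ne x).symm (hd_el_mul_of hqh)
  · by_cases hxn : x = nv l
    · subst hxn
      rw [el_nv, _root_.map_inv, psi_el_self hA, ← el_nv]
      rw [nv_nv] at hq
      have h1 : hd q ≠ some l := by
        intro h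
        apply hq
        exact del_of_hd2 hA hlA (nv_ne l).symm h
      have h2 : hd (el (nv l) * q) = some (nv l) := by
        apply hd_el_mul_of
        rw [nv_nv]
        exact h1
      rw [del_of_not, h2]
      · intro y hy h
        rw [h2] at h
        injection h with h
        exact hnlA (h ▸ hy)
      · intro y hy h
        rw [← mul_assoc, el_mul_el_nv, one_mul] at h
        exact hq (del_of_mem hy h)
    · have hq' : hd ((if nv x ∈ A then el l else 1) * q) ≠ some (nv x) := by
        intro hc
        by_cases hnx : nv x ∈ A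
        · rw [if_pos hnx] at hc
          exact hq (del_of_mem2' hA hnx hc)
        · rw [if_neg hnx, one_mul] at hc
          apply hq
          apply del_of_hd2 hA hnx _ hc
          intro h
          exact hxl (nv_inj h)
      have h2 := hd_el_mul_of hq'
      rw [psi_el]
      by_cases hx : x ∈ A
      · rw [if_pos hx]
        apply del_of_mem2' hA hx
        rw [← h2]
        congr 1
        group
      · rw [if_neg hx, one_mul, mul_assoc]
        exact del_of_hd2 hA hx hxn h2

lemma del_psi (hA : ∀ y ∈ A, y.1 ≠ l.1) (h : FreeGroup α) :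
    del A l (psi A (el l) h) = hd h := by
  refine word_induction (P := fun h => del A l (psi A (el l) h) = hd h) ?_ ?_ h
  · rw [_root_.map_one, del_of_not]
    · intro y _ h; simp at h
    · intro y hy h
      rw [mul_one, hd_el] at h
      injection h with h
      exact hA y hy (by rw [h])
  · intro x g' hg' ih
    rw [_root_.map_mul, hd_el_mul_of hg']
    apply del_step2 hA
    rw [ih]
    exact hg'

lemma del_self_iff (hA : ∀ y ∈ A, y.1 ≠ l.1) (p : FreeGroup α) :
    del A l p = some l ↔ (∃ y ∈ A, hd p = some y) ∨ hd p = some l := by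
  have hlA : l ∉ A := fun h => hA l h rfl
  constructor
  · intro h
    unfold del at h
    split_ifs at h with h1 h2
    · exact Or.inl h1
    · obtain ⟨y, hy, hyp⟩ := h2
      rw [hyp] at h
      injection h with h
      exact absurd (h ▸ hy) hlA
    · exact Or.inr h
  · rintro (⟨y, hy, hp⟩ | hp)
    · exact del_of_mem hy hp
    · exact del_of_hd2 hA hlA (nv_ne l).symm hp

end Del

/-- the complexity drops under the Whitehead move -/
lemma cx_psi_lt [Fintype α] {E : Set (FreeGroup α)} {A : Finset (α × Bool)} {l : α × Bool}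
    (hA : ∀ y ∈ A, y.1 ≠ l.1)
    (hlt0 : (crs E {p | (∃ y ∈ A, hd p = some y) ∨ hd p = some l}).ncard <
      (crs E (Cn l)).ncard) :
    cx (psiE A l hA ⁻¹' E) < cx E := by
  have hdel : ∀ h, del A l (psi A (el l) h) = hd h := del_psi hA
  have hcrs : ∀ x, (crs (psiE A l hA ⁻¹' E) (Cn x)).ncard
      = (crs E {p | del A l p = some x}).ncard := by
    intro x
    have h1 : crs (psiE A l hA ⁻¹' E) (Cn x)
        = (psiE A l hA).toEquiv ⁻¹' (crs E {p | del A l p = some x}) := by
      ext k
      show Cross (tr k (psiE A l hA ⁻¹' E)) (Cn x)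
        ↔ Cross (tr (psi A (el l) k) E) {p | del A l p = some x}
      rw [← cross_preimage (psiE A l hA).toEquiv (tr (psi A (el l) k) E)
        {p | del A l p = some x}]
      have e1 : (psiE A l hA).toEquiv ⁻¹' (tr (psi A (el l) k) E)
          = tr k (psiE A l hA ⁻¹' E) := by
        ext p
        show psi A (el l) k * psi A (el l) p ∈ E ↔ psi A (el l) (k * p) ∈ E
        rw [_root_.map_mul]
      have e2 : (psiE A l hA).toEquiv ⁻¹' {p | del A l p = some x} = Cn x := by
        ext p
        show del A l (psi A (el l) p) = some x ↔ hd p = some x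
        rw [hdel]
      rw [e1, e2]
    rw [h1, ncard_preimage_equiv]
  have hother : ∀ x : α × Bool, x ≠ l → x ≠ nv l →
      (crs (psiE A l hA ⁻¹' E) (Cn x)).ncard = (crs E (Cn x)).ncard := by
    intro x hxl hxn
    rw [hcrs]
    by_cases hx : x ∈ A
    · have : {p | del A l p = some x} = tr (el l) (Cn x) := by
        ext p
        show del A l p = some x ↔ hd (el l * p) = some x
        constructor
        · intro h
          unfold del at h
          split_ifs at h with h1 h2
          · injection h with h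
            exact absurd h.symm hxl
          · exact h
          · exact absurd ⟨x, hx, h⟩ h1
        · intro h
          exact del_of_mem2' hA hx h
      rw [this, ncard_crs_tr]
    · have : {p | del A l p = some x} = Cn x := by
        ext p
        show del A l p = some x ↔ hd p = some x
        constructor
        · intro h
          unfold del at h
          split_ifs at h with h1 h2
          · injection h with h
            exact absurd h.symm hxl
          · obtain ⟨y, hy, hyp⟩ := h2
            rw [hyp] at h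
            injection h with h
            exact absurd (h ▸ hy) hx
          · exact h
        · intro h
          exact del_of_hd2 hA hx hxn h
      rw [this]
  have hlt : (crs (psiE A l hA ⁻¹' E) (Cn l)).ncard < (crs E (Cn l)).ncard := by
    rw [hcrs]
    have : {p : FreeGroup α | del A l p = some l} =
        {p | (∃ y ∈ A, hd p = some y) ∨ hd p = some l} := by
      ext p
      exact del_self_iff hA p
    rw [this]
    exact hlt0
  unfold cx
  apply Finset.sum_lt_sum
  · intro j _
    by_cases hj : j = l.1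
    · subst hj
      obtain ⟨j, b⟩ := l
      cases b
      · have e1 := ncard_crs_nv (psiE A (j, false) hA ⁻¹' E) (j, false)
        have e2 := ncard_crs_nv E (j, false)
        simp only [nv, Bool.not_false] at e1 e2
        rw [e1, e2]
        exact hlt.le
      · exact hlt.le
    · apply le_of_eq
      apply hother
      · intro h; exact hj (by rw [← h])
      · intro h; apply hj; have := congrArg Prod.fst h; exact this
  · refine ⟨l.1, Finset.mem_univ _, ?_⟩
    obtain ⟨j, b⟩ := l
    cases b
    · have e1 := ncard_crs_nv (psiE A (j, false) hA ⁻¹' E) (j, false)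
      have e2 := ncard_crs_nv E (j, false)
      simp only [nv, Bool.not_false] at e1 e2
      rw [e1, e2]
      exact hlt
    · exact hlt

/-! ### axis cuts -/

lemma axisCut_compl {z : α} {E : Set (FreeGroup α)} (h : AxisCut z E) : AxisCut z Eᶜ := by
  obtain ⟨g, h1, h2⟩ := h
  refine ⟨g, h2, ?_⟩
  have e : {n : ℤ | g * FreeGroup.of z ^ n ∉ Eᶜ} = {n : ℤ | g * FreeGroup.of z ^ n ∈ E} := by
    ext n
    simp
  rw [e]
  exact h1

lemma axisCut_infinite {z : α} {E : Set (FreeGroup α)} (h : AxisCut z E) : E.Infinite := by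
  obtain ⟨g, h1, -⟩ := h
  intro hf
  apply h1
  have hinj : Function.Injective (fun n : ℤ => g * (FreeGroup.of z : FreeGroup α) ^ n) := by
    intro a b hab
    exact zpow_of_inj z (mul_left_cancel hab)
  exact hf.preimage hinj.injOn

lemma axisCut_preimage {z : α} {E : Set (FreeGroup α)} (h : AxisCut z E)
    (f : FreeGroup α ≃* FreeGroup α) (hf : f (FreeGroup.of z) = FreeGroup.of z) :
    AxisCut z (f ⁻¹' E) := by
  obtain ⟨g, h1, h2⟩ := h
  obtain ⟨g', rfl⟩ := f.surjective g
  have e : ∀ n : ℤ, f (g' * FreeGroup.of z ^ n) = f g' * FreeGroup.of z ^ n := by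
    intro n
    rw [_root_.map_mul, _root_.map_zpow, hf]
  refine ⟨g', ?_, ?_⟩
  · have : {n : ℤ | g' * FreeGroup.of z ^ n ∈ f ⁻¹' E} =
        {n : ℤ | f g' * FreeGroup.of z ^ n ∈ E} := by
      ext n
      show f (g' * FreeGroup.of z ^ n) ∈ E ↔ _
      rw [e]
      rfl
    rw [this]
    exact h1
  · have : {n : ℤ | g' * FreeGroup.of z ^ n ∉ f ⁻¹' E} =
        {n : ℤ | f g' * FreeGroup.of z ^ n ∉ E} := by
      ext n
      show ¬ (f (g' * FreeGroup.of z ^ n) ∈ E) ↔ _
      rw [e]
      rfl
    rw [this]
    exact h2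

/-- **The surgery step relative to `V`.** -/
lemma surgery_stepV [Fintype α] {E : Set (FreeGroup α)} (hE : Good E) {V : Finset α} {z : α}
    (hz : z ∈ V) (hK : AxisCut z E) {g : FreeGroup α} {A B : Finset (α × Bool)}
    (hl : IsLeaf E g A B) (hdeg : ∀ x ∈ A, x.1 ∉ V) :
    ∃ f : FreeGroup α ≃* FreeGroup α, (∀ y ∈ V, f (FreeGroup.of y) = FreeGroup.of y) ∧
      cx (f ⁻¹' E) < cx E := by
  classical
  set DA : Set (FreeGroup α) := {p | ∃ x ∈ A, hd p = some x} with hDA
  set DB : Set (FreeGroup α) := {p | ∃ x ∈ B, hd p = some x} with hDB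
  have hDAf : (DA ∩ (tr g E)ᶜ).Finite := by
    have : DA ∩ (tr g E)ᶜ = ⋃ x ∈ A, (Cn x ∩ (tr g E)ᶜ) := by
      ext p
      simp only [hDA, Set.mem_inter_iff, Set.mem_iUnion, mem_Cn, exists_prop]
      constructor
      · rintro ⟨⟨x, hx, hp⟩, h⟩; exact ⟨x, hx, hp, h⟩
      · rintro ⟨x, hx, hp, h⟩; exact ⟨⟨x, hx, hp⟩, h⟩
    rw [this]
    exact Set.Finite.biUnion (Finset.finite_toSet A) hl.hA
  have hDBf : (DB ∩ tr g E).Finite := by
    have : DB ∩ tr g E = ⋃ x ∈ B, (Cn x ∩ tr g E) := by
      ext p
      simp only [hDB, Set.mem_inter_iff, Set.mem_iUnion, mem_Cn, exists_prop]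
      constructor
      · rintro ⟨⟨x, hx, hp⟩, h⟩; exact ⟨x, hx, hp, h⟩
      · rintro ⟨x, hx, hp, h⟩; exact ⟨⟨x, hx, hp⟩, h⟩
    rw [this]
    exact Set.Finite.biUnion (Finset.finite_toSet B) hl.hB
  -- there is a letter outside `A ∪ B`
  obtain ⟨c, hcA, hcB⟩ : ∃ c, c ∉ A ∧ c ∉ B := by
    by_contra hcon
    push Not at hcon
    obtain ⟨g0, hK1, hK2⟩ := hK
    set k := g⁻¹ * g0 with hk
    have hgk : ∀ h, g0 * h = g * (k * h) := by
      intro h
      rw [hk]
      group
    have hfin1 : {p | p ∈ tr g E ∧ p ∉ DA}.Finite := by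
      apply (hDBf.union (Set.finite_singleton (1 : FreeGroup α))).subset
      rintro p ⟨hp1, hp2⟩
      cases hh : hd p with
      | none => exact Or.inr (hd_eq_none.1 hh)
      | some x =>
        left
        refine ⟨⟨x, ?_, hh⟩, hp1⟩
        apply hcon
        intro hx
        exact hp2 ⟨x, hx, hh⟩
    have hzA : ∀ x ∈ A, x.1 ≠ z := fun x hx h => hdeg x hx (h ▸ hz)
    have hconst : (∀ h ∈ ZV z, k * h ∈ DA) ∨ (∀ h ∈ ZV z, k * h ∉ DA) := by
      by_cases hkz : k ∈ ZV z
      · right
        rintro h hh ⟨x, hx, hhx⟩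
        exact hzA x hx (hd_of_mem_ZV ((ZV z).mul_mem hkz hh) hhx)
      · by_cases hkA : k ∈ DA
        · left
          intro h hh
          obtain ⟨x, hx, hkx⟩ := hkA
          exact ⟨x, hx, by rw [hd_mul_ZV k h hkz hh]; exact hkx⟩
        · right
          rintro h hh ⟨x, hx, hhx⟩
          rw [hd_mul_ZV k h hkz hh] at hhx
          exact hkA ⟨x, hx, hhx⟩
    have hinj : Function.Injective (fun n : ℤ => k * (FreeGroup.of z : FreeGroup α) ^ n) := by
      intro a b hab
      exact zpow_of_inj z (mul_left_cancel hab)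
    have hmem : ∀ n : ℤ, (FreeGroup.of z : FreeGroup α) ^ n ∈ ZV z :=
      fun n => (ZV z).zpow_mem (of_mem_ZV z) n
    rcases hconst with hc | hc
    · apply hK2
      refine (hDAf.preimage hinj.injOn).subset ?_
      intro n hn
      refine ⟨hc _ (hmem n), ?_⟩
      have hn' : g0 * FreeGroup.of z ^ n ∉ E := hn
      rw [hgk] at hn'
      exact hn'
    · apply hK1
      refine (hfin1.preimage hinj.injOn).subset ?_
      intro n hn
      refine ⟨?_, hc _ (hmem n)⟩
      have hn' : g0 * FreeGroup.of z ^ n ∈ E := hn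
      rw [hgk] at hn'
      exact hn'
  -- surgery inequality
  obtain ⟨a0, ha0⟩ := hl.neA
  obtain ⟨b0, hb0⟩ := hl.neB
  have hDAi : DA.Infinite := (Cn_infinite a0).mono (fun p hp => ⟨a0, ha0, hp⟩)
  have hDBi : DB.Infinite := (Cn_infinite b0).mono (fun p hp => ⟨b0, hb0, hp⟩)
  have hcov : ∀ h : FreeGroup α, h ∈ ({1} : Set (FreeGroup α)) ∨ h ∈ DA ∨ h ∈ DB ∨ h ∈ Cn c := by
    intro h
    cases hh : hd h with
    | none => exact Or.inl (hd_eq_none.1 hh)
    | some x =>
      by_cases hx : x ∈ A
      · exact Or.inr (Or.inl ⟨x, hx, hh⟩)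
      · by_cases hx' : x ∈ B
        · exact Or.inr (Or.inr (Or.inl ⟨x, hx', hh⟩))
        · rw [hl.few x c hx hx' hcA hcB] at hh
          exact Or.inr (Or.inr (Or.inr hh))
  have hAC : ∀ h, h ∈ DA → h ∉ Cn c := by
    rintro h ⟨x, hx, hh⟩ hc
    rw [mem_Cn, hh] at hc
    injection hc with hc
    exact hcA (hc ▸ hx)
  have hBC : ∀ h, h ∈ DB → h ∉ Cn c := by
    rintro h ⟨x, hx, hh⟩ hc
    rw [mem_Cn, hh] at hc
    injection hc with hc
    exact hcB (hc ▸ hx)
  obtain ⟨fA, fB, hineq⟩ := surgery_ineq hE g (Set.finite_singleton 1) hcov hAC hBC hDAf hDBf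
    hDAi hDBi (hl.hB' c hcB) (hl.hA' c hcA) (crs_Cn_finite hE c)
  -- letters with the same first component
  have hpair : ∀ x : α × Bool, x.1 = c.1 → x = c ∨ x = nv c := by
    rintro ⟨j, b⟩ h
    obtain ⟨j', b'⟩ := c
    simp only at h
    subst h
    cases b <;> cases b' <;> simp [nv]
  -- fixing `V`
  have hfix : ∀ (S : Finset (α × Bool)) (l : α × Bool) (hS : ∀ y ∈ S, y.1 ≠ l.1), S ⊆ A →
      ∀ y ∈ V, psiE S l hS (FreeGroup.of y) = FreeGroup.of y := by
    intro S l hS hSA y hy
    rw [psiE_apply, psi_of, if_neg, if_neg]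
    · simp
    · intro h; exact hdeg _ (hSA h) hy
    · intro h; exact hdeg _ (hSA h) hy
  by_cases hnc : nv c ∈ A
  · -- `l = nv c`
    have hS : ∀ y ∈ A.erase (nv c), y.1 ≠ (nv c).1 := by
      intro y hy h
      rw [Finset.mem_erase] at hy
      rcases hpair y h with h' | h'
      · exact hcA (h' ▸ hy.2)
      · exact hy.1 h'
    refine ⟨psiE (A.erase (nv c)) (nv c) hS, hfix _ _ hS (Finset.erase_subset _ _),
      cx_psi_lt hS ?_⟩
    have e : {p : FreeGroup α | (∃ y ∈ A.erase (nv c), hd p = some y) ∨ hd p = some (nv c)} =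
        DA := by
      ext p
      constructor
      · rintro (⟨y, hy, hp⟩ | hp)
        · exact ⟨y, (Finset.mem_erase.1 hy).2, hp⟩
        · exact ⟨_, hnc, hp⟩
      · rintro ⟨y, hy, hp⟩
        by_cases h : y = nv c
        · right; rw [← h]; exact hp
        · left; exact ⟨y, Finset.mem_erase.2 ⟨h, hy⟩, hp⟩
    rw [e, ncard_crs_nv]
    omega
  · have hS : ∀ y ∈ A, y.1 ≠ c.1 := by
      intro y hy h
      rcases hpair y h with h' | h'
      · exact hcA (h' ▸ hy)
      · exact hnc (h' ▸ hy)
    refine ⟨psiE A c hS, hfix _ _ hS (Finset.Subset.refl _), cx_psi_lt hS ?_⟩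
    have h1 : crs E {p : FreeGroup α | (∃ y ∈ A, hd p = some y) ∨ hd p = some c} = crs E DB := by
      ext k
      show Cross (tr k E) {p | (∃ y ∈ A, hd p = some y) ∨ hd p = some c} ↔ Cross (tr k E) DB
      rw [← cross_compl_right (D := {p : FreeGroup α | (∃ y ∈ A, hd p = some y) ∨
        hd p = some c})]
      have e1 : {p : FreeGroup α | (∃ y ∈ A, hd p = some y) ∨ hd p = some c}ᶜ \ DB ⊆ {1} := by
        rintro p ⟨hp1, hp2⟩
        rcases hcov p with h | h | h | h
        · exact h
        · exact absurd (Or.inl h) hp1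
        · exact absurd h hp2
        · exact absurd (Or.inr h) hp1
      have e2 : DB \ {p : FreeGroup α | (∃ y ∈ A, hd p = some y) ∨ hd p = some c}ᶜ = ∅ := by
        ext p
        simp only [Set.mem_sdiff, Set.mem_compl_iff, not_not, Set.mem_empty_iff_false, iff_false,
          not_and]
        rintro ⟨x, hx, hp⟩ (⟨y, hy, hp'⟩ | hp')
        · rw [hp] at hp'
          injection hp' with hp'
          exact (Finset.disjoint_left.1 hl.disj (hp' ▸ hy)) hx
        · exact hBC p ⟨x, hx, hp⟩ hp'
      have f1 := (Set.finite_singleton (1 : FreeGroup α)).subset e1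
      have f2 : (DB \ {p : FreeGroup α | (∃ y ∈ A, hd p = some y) ∨ hd p = some c}ᶜ).Finite := by
        rw [e2]; exact Set.finite_empty
      exact ⟨fun h => h.congr_right f1 f2, fun h => h.congr_right f2 f1⟩
    rw [h1]
    omega

theorem stmtB : StmtB := by
  intro α _ _ V E z hz hE hK
  induction hn : cx E using Nat.strong_induction_on generalizing E with
  | _ n ih =>
    obtain ⟨g, A, B, hl⟩ := exists_leaf hE (axisCut_infinite hK)
      (axisCut_infinite (axisCut_compl hK))
    have hrec : ∀ f : FreeGroup α ≃* FreeGroup α, (∀ y ∈ V, f (FreeGroup.of y) = FreeGroup.of y) →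
        cx (f ⁻¹' E) < cx E →
        ∃ f : FreeGroup α ≃* FreeGroup α, (∀ y ∈ V, f (FreeGroup.of y) = FreeGroup.of y) ∧
          ∃ g A B, IsLeaf (f ⁻¹' E) g A B ∧ (∃ x ∈ A, x.1 ∈ V) ∧ (∃ x ∈ B, x.1 ∈ V) := by
      intro f hf hlt
      obtain ⟨f', hf', g', A', B', h1, h2, h3⟩ := ih _ (hn ▸ hlt) (f ⁻¹' E) (hE.preimage f)
        (axisCut_preimage hK f (hf z hz)) rfl
      refine ⟨f'.trans f, ?_, g', A', B', ?_, h2, h3⟩
      · intro y hy
        rw [MulEquiv.trans_apply, hf' y hy, hf y hy]
      · have : (f'.trans f) ⁻¹' E = f' ⁻¹' (f ⁻¹' E) := rfl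
        rw [this]
        exact h1
    by_cases hA : ∃ x ∈ A, x.1 ∈ V
    · by_cases hB : ∃ x ∈ B, x.1 ∈ V
      · exact ⟨MulEquiv.refl _, fun y _ => rfl, g, A, B, hl, hA, hB⟩
      · push Not at hB
        obtain ⟨f, hf, hlt⟩ := surgery_stepV hE.compl hz (axisCut_compl hK) hl.compl hB
        apply hrec f hf
        rw [Set.preimage_compl, cx_compl, cx_compl] at hlt
        exact hlt
    · push Not at hA
      obtain ⟨f, hf, hlt⟩ := surgery_stepV hE hz hK hl hA
      exact hrec f hf hlt

end Pool.Agent.Helper3.PX
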